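import Pool.Agent.Y663.JG.Gen

/-!
# Typical bounded potentials: recurrent transfer matrices, purely singular spectrum

Stronger form of the starting result `PurelySingular`. Let `B > 2`. For all potentials `b` in a dense
`G_δ` subset of `[-B, B]^ℕ` (product topology) the half line Schroedinger operator with potential `b`
has purely singular spectrum, so that `Σ_ac(J)` is empty, while `liminf ‖T_E(n)‖ ≤ C` for almost every
energy `E ∈ [2 - B, B]`, with a universal constant `C`. So Q1 fails for typical bounded potentials,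
and the two sets differ by a set of measure at least `2 (B - 1)`. (The set of all energies with
`liminf ‖T_E(n)‖ < ∞` is contained in `[-B - 2, B + 2]`.)

The two properties are countable intersections of open conditions: the measure of the set of energies
at which the transfer matrices of a certain length are large (or the first columns small) is an upper
semicontinuous function of the potential. The conditions are dense, since every finite piece of a
potential can be continued by the barriers and the universal words of the starting library.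
-/

set_option autoImplicit false

open MeasureTheory Filter Set Topology

namespace Pool.Agent.Results.MP_8faa00_mp.TypicalPotentials

/-- The Jacobi operator: `(J u)_n = a_n u_{n+1} + b_n u_n + a_{n-1} u_{n-1}` for `n ≥ 1`, acting on
sequences `(u_n)_{n ≥ 0}` with `u_0 = 0` (the values `a 0`, `b 0` are not used). -/
def jacobi (a b : ℕ → ℝ) (u : ℕ → ℝ) : ℕ → ℝ := fun n =>
  if n = 0 then 0 else a n * u (n + 1) + b n * u n + a (n - 1) * u (n - 1)

/-- The sequence `δ_1`. -/
def delta1 : ℕ → ℝ := fun n => if n = 1 then 1 else 0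

/-- `μ` is the spectral measure of the Jacobi matrix for the vector `δ_1`: it is a finite measure with
bounded support and its moments are `⟨δ_1, J^k δ_1⟩`. -/
def IsSpectralMeasure (a b : ℕ → ℝ) (μ : Measure ℝ) : Prop :=
  IsFiniteMeasure μ ∧ (∃ R : ℝ, μ {x | R < |x|} = 0) ∧
    ∀ k : ℕ, ∫ x, x ^ k ∂μ = ((jacobi a b)^[k] delta1) 1

/-- The Borel set `S` is an essential support of the absolutely continuous part of `μ`: the absolutely
continuous part of `μ` and Lebesgue measure on `S` are mutually absolutely continuous. -/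
def IsAcSupport (μ : Measure ℝ) (S : Set ℝ) : Prop :=
  MeasurableSet S ∧ volume.withDensity (μ.rnDeriv volume) ≪ volume.restrict S ∧
    volume.restrict S ≪ volume.withDensity (μ.rnDeriv volume)

/-- The matrix `A_k(E)`, `k ≥ 1`, with the convention `a_0 = 1`. -/
noncomputable def stepMatrix (a b : ℕ → ℝ) (E : ℝ) (k : ℕ) : Matrix (Fin 2) (Fin 2) ℝ :=
  (a k)⁻¹ • !![E - b k, -(if k = 1 then 1 else a (k - 1)); a k, 0]

/-- The transfer matrix `T_E(n) = A_n(E) ⋯ A_1(E)`. -/
noncomputable def transfer (a b : ℕ → ℝ) (E : ℝ) : ℕ → Matrix (Fin 2) (Fin 2) ℝ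
  | 0 => 1
  | n + 1 => stepMatrix a b E (n + 1) * transfer a b E n

/-- The set of energies with `liminf ‖T_E(n)‖ < ∞`. -/
def liminfSet (a b : ℕ → ℝ) : Set ℝ :=
  {E | ∃ C : ℝ, ∃ᶠ n in atTop, ∀ i j : Fin 2, |(transfer a b E n) i j| ≤ C}

/-- The potential `b_1 = q 0, b_2 = q 1, …` given by `q ∈ [-B, B]^ℕ`. -/
def pot {B : ℝ} (q : ℕ → Icc (-B) B) : ℕ → ℝ := fun n => (q (n - 1) : ℝ)

lemma transfer_eq (b : ℕ → ℝ) (E : ℝ) (n : ℕ) :
    transfer (fun _ => 1) b E n = Pool.Agent.TH310.JS.transfer (fun _ => 1) b E n := by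
  induction n with
  | zero => rfl
  | succ n ih =>
    rw [transfer, ih]
    rfl

lemma unique {b : ℕ → ℝ} {μ ν : Measure ℝ} (hμ : IsSpectralMeasure (fun _ => 1) b μ)
    (hν : IsSpectralMeasure (fun _ => 1) b ν) : ν = μ := by
  obtain ⟨f1, ⟨R1, r1⟩, m1⟩ := hν
  obtain ⟨f2, ⟨R2, r2⟩, m2⟩ := hμ
  refine Pool.Agent.TH310.JS.ext_moments ν μ (max R1 R2) ?_ ?_ fun k => ?_
  · refine measure_mono_null ?_ r1
    intro x hx
    exact lt_of_le_of_lt (le_max_left R1 R2) hx
  · refine measure_mono_null ?_ r2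
    intro x hx
    exact lt_of_le_of_lt (le_max_right R1 R2) hx
  · rw [m1, m2]

lemma acSupport_null {μ : Measure ℝ} (hf : IsFiniteMeasure μ) (h2 : μ ⟂ₘ volume) {S : Set ℝ}
    (hS : IsAcSupport μ S) : volume S = 0 := by
  have h4 : μ.rnDeriv volume =ᵐ[volume] 0 := (Measure.rnDeriv_eq_zero μ volume).2 h2
  have h5 : volume.withDensity (μ.rnDeriv volume) = 0 := by
    rw [withDensity_congr_ae h4, withDensity_zero]
  have h6 := hS.2.2
  rw [h5] at h6
  have h7 := Measure.absolutelyContinuous_zero_iff.1 h6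
  rwa [Measure.restrict_eq_zero] at h7

lemma acSupport_empty {μ : Measure ℝ} (hf : IsFiniteMeasure μ) (h2 : μ ⟂ₘ volume) :
    IsAcSupport μ ∅ := by
  have h4 : μ.rnDeriv volume =ᵐ[volume] 0 := (Measure.rnDeriv_eq_zero μ volume).2 h2
  have h5 : volume.withDensity (μ.rnDeriv volume) = 0 := by
    rw [withDensity_congr_ae h4, withDensity_zero]
  refine ⟨MeasurableSet.empty, ?_, ?_⟩ <;> rw [h5, Measure.restrict_empty]

/-- **Main theorem.** The equality of Q1 fails (first part), and it fails for typical potentials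
(second part): there is a constant `C` such that for every `B > 2` and all `q` in a dense `G_δ` subset
of `[-B, B]^ℕ` the operator with `a_n = 1` and potential `b_n = q (n - 1)`, `n ≥ 1`, has exactly one
spectral measure, it is purely singular, `liminf ‖T_E(n)‖ ≤ C` for almost every `E ∈ [2 - B, B]`, every
essential support of the absolutely continuous part is a null set, and it differs from
`{E : liminf ‖T_E(n)‖ < ∞}` by a set of measure at least `2 (B - 1)`. -/
theorem result :
    (¬ ∀ (a b : ℕ → ℝ), (∀ n, 1 ≤ n → 0 < a n) → (∃ B : ℝ, ∀ n, |a n| ≤ B ∧ |b n| ≤ B) →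
      ∀ (μ : Measure ℝ) (S : Set ℝ), IsSpectralMeasure a b μ → IsAcSupport μ S →
        volume (symmDiff (liminfSet a b) S) = 0) ∧
    ∃ C : ℝ, ∀ B : ℝ, 2 < B → ∃ G : Set (ℕ → Icc (-B) B), IsGδ G ∧ Dense G ∧ ∀ q ∈ G,
      ∃ μ : Measure ℝ, IsSpectralMeasure (fun _ => 1) (pot q) μ ∧
        (∀ ν, IsSpectralMeasure (fun _ => 1) (pot q) ν → ν = μ) ∧
        μ ⟂ₘ volume ∧
        (∀ᵐ E ∂(volume.restrict (Icc (2 - B) B)), ∃ᶠ n in atTop, ∀ i j : Fin 2,
          |(transfer (fun _ => 1) (pot q) E n) i j| ≤ C) ∧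
        IsAcSupport μ ∅ ∧
        ∀ S, IsAcSupport μ S → volume S = 0 ∧
          ENNReal.ofReal (2 * (B - 1)) ≤
            volume (symmDiff (liminfSet (fun _ => 1) (pot q)) S) := by
  obtain ⟨C, hC⟩ := Pool.Agent.Y663.JG.generic
  have key : ∀ B : ℝ, 2 < B → ∃ G : Set (ℕ → Icc (-B) B), IsGδ G ∧ Dense G ∧ ∀ q ∈ G,
      ∃ μ : Measure ℝ, IsSpectralMeasure (fun _ => 1) (pot q) μ ∧
        (∀ ν, IsSpectralMeasure (fun _ => 1) (pot q) ν → ν = μ) ∧
        μ ⟂ₘ volume ∧
        (∀ᵐ E ∂(volume.restrict (Icc (2 - B) B)), ∃ᶠ n in atTop, ∀ i j : Fin 2,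
          |(transfer (fun _ => 1) (pot q) E n) i j| ≤ C) ∧
        IsAcSupport μ ∅ ∧
        ∀ S, IsAcSupport μ S → volume S = 0 ∧
          ENNReal.ofReal (2 * (B - 1)) ≤
            volume (symmDiff (liminfSet (fun _ => 1) (pot q)) S) := by
    intro B hB
    obtain ⟨G, hG1, hG2, hG3⟩ := hC B hB
    refine ⟨G, hG1, hG2, fun q hq => ?_⟩
    obtain ⟨⟨μ, f1, f2, f3, f4⟩, hE⟩ := hG3 q hq
    have hμ : IsSpectralMeasure (fun _ => 1) (pot q) μ := ⟨f1, f2, f3⟩
    have hE' : ∀ᵐ E ∂(volume.restrict (Icc (2 - B) B)), ∃ᶠ n in atTop,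
        ∀ i j : Fin 2, |(transfer (fun _ => 1) (pot q) E n) i j| ≤ C := by
      filter_upwards [hE] with E h
      refine h.mono fun n hn i j => ?_
      rw [transfer_eq]
      exact hn i j
    refine ⟨μ, hμ, fun ν hν => unique hμ hν, f4, hE', acSupport_empty f1 f4, fun S hS => ?_⟩
    have hS0 := acSupport_null f1 f4 hS
    refine ⟨hS0, ?_⟩
    have h1 : volume (Icc (2 - B) B) ≤
        volume (symmDiff (liminfSet (fun _ => 1) (pot q)) S) := by
      have h2 := hE'
      rw [ae_restrict_iff' measurableSet_Icc] at h2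
      have h3 : ∀ᵐ E ∂(volume : Measure ℝ), E ∉ S := measure_eq_zero_iff_ae_notMem.mp hS0
      refine measure_mono_ae ?_
      filter_upwards [h2, h3] with E h4 h5 hmem
      exact Or.inl ⟨⟨C, h4 hmem⟩, h5⟩
    rw [Real.volume_Icc] at h1
    refine le_trans (le_of_eq ?_) h1
    congr 1
    ring
  refine ⟨fun hQ => ?_, C, key⟩
  obtain ⟨G, -, hG2, hG3⟩ := key 3 (by norm_num)
  have hne : Nonempty (ℕ → Icc (-(3 : ℝ)) 3) := ⟨fun _ => ⟨0, by norm_num⟩⟩
  obtain ⟨q, hq⟩ := hG2.nonempty
  obtain ⟨μ, h1, -, h2, -, h3, h4⟩ := hG3 q hq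
  have h5 := hQ (fun _ => 1) (pot q) (fun _ _ => one_pos)
    ⟨3, fun n => ⟨by rw [abs_one]; norm_num, abs_le.mpr (q (n - 1)).2⟩⟩ μ ∅ h1 h3
  have h6 := (h4 ∅ h3).2
  rw [h5] at h6
  norm_num at h6

end Pool.Agent.Results.MP_8faa00_mp.TypicalPotentials
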